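import Pool.Agent.Work.MP_91e6de_nt.Defs

/-!
# MP_91e6de: statements of the items (arithmetic part)
-/

open Polynomial Filter Topology Height Height.AdmissibleAbsValues

namespace Pool.Agent.Work.MP_91e6de_nt

/-- a place of the number field `K` (one of the absolute values of the product formula) -/
def IsPl {K : Type} [Field K] [NumberField K] (v : AbsoluteValue K ℝ) : Prop :=
  v ∈ archAbsVal (K := K) ∨ v ∈ nonarchAbsVal (K := K)

/-- Zariski density in the affine plane of a sequence of points -/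
def Dense2 {K : Type} [Field K] (P : ℕ → K × K) : Prop :=
  ∀ R : K[X][X], (∀ n, R.evalEval (P n).1 (P n).2 = 0) → R = 0

/-- the second coordinates grow at most like a power of the first ones, at the place `v` -/
def SlowAt {K : Type} [Field K] (g : K[X]) (F : K[X][X]) (P : K × K)
    (v : AbsoluteValue K ℝ) : Prop :=
  ∃ (A : ℕ) (B : ℝ), ∀ n, v (orb g F P n).2 ≤ B * max 1 (v (orb g F P n).1) ^ A

/-- the height of the point `[x : y : 1]` -/
noncomputable def hP {K : Type} [Field K] [NumberField K] (P : K × K) : ℝ :=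
  logHeight ![P.1, P.2, 1]

/-- UF: an ultrafilter avoiding all curves -/
def S_UF : Prop := ∀ (K : Type) [Field K] (P : ℕ → K × K), Dense2 P →
  ∃ U : Ultrafilter ℕ, ∀ R : K[X][X], R ≠ 0 →
    ∀ᶠ n in (U : Filter ℕ), R.evalEval (P n).1 (P n).2 ≠ 0

/-- LM: the limit seminorm -/
def S_LM : Prop := ∀ (K : Type) [Field K] (v : AbsoluteValue K ℝ) (U : Ultrafilter ℕ)
  (u w : ℕ → K) (A : ℕ) (B : ℝ), Tendsto (fun n => v (u n)) U atTop →
  (∀ᶠ n in (U : Filter ℕ), v (w n) ≤ B * v (u n) ^ A) →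
  ∃ N : LimSn K,
    (∀ R : K[X][X], N.N R < 1 → ∃ η : ℝ, 0 < η ∧
      ∀ᶠ n in (U : Filter ℕ), v (R.evalEval (u n) (w n)) ≤ v (u n) ^ (-η)) ∧
    ∀ (R : K[X][X]) (M B' : ℝ),
      (∀ᶠ n in (U : Filter ℕ), v (R.evalEval (u n) (w n)) ≤ B' * v (u n) ^ M) →
      N.N R ≤ Real.exp M

/-- OR: the iterates as polynomials -/
def S_OR : Prop := ∀ (K : Type) [Field K] (g : K[X]) (F : K[X][X]) (P : K × K) (n k : ℕ),
  (orb g F P (n + k)).1 = (gN g k).eval (orb g F P n).1 ∧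
  (orb g F P (n + k)).2 = (FN g F k).evalEval (orb g F P n).1 (orb g F P n).2 ∧
  (gN g k).natDegree = g.natDegree ^ k

/-- PB: upper bounds for values of polynomials -/
def S_PB : Prop := ∀ (K : Type) [Field K] (v : AbsoluteValue K ℝ),
  (∀ a : K[X], ∃ B : ℝ, 1 ≤ B ∧ ∀ x, v (a.eval x) ≤ B * max 1 (v x) ^ a.natDegree) ∧
  ∀ R : K[X][X], ∃ (B : ℝ) (m : ℕ), 1 ≤ B ∧
    ∀ x y, v (R.evalEval x y) ≤ B * max 1 (v x) ^ m * max 1 (v y) ^ R.natDegree

/-- DI: dichotomy at an absolute value -/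
def S_DI : Prop := ∀ (K : Type) [Field K] (v : AbsoluteValue K ℝ) (g : K[X]) (F : K[X][X])
  (d : ℕ) (c : K), 2 ≤ d → g.natDegree ≤ d → F.natDegree = d → F.coeff d = C c → c ≠ 0 →
  ∀ P : K × K, SlowAt g F P v ∨ ∃ κ : ℝ, 0 < κ ∧ ∀ᶠ n in atTop, κ * (d : ℝ) ^ n ≤ Real.log (v (orb g F P n).2)

/-- IN: integrality outside a finite set of places -/
def S_IN : Prop := ∀ (K : Type) [Field K] [NumberField K] (g : K[X]) (F : K[X][X]) (P : K × K),
  ∃ T : Finset (AbsoluteValue K ℝ), ∀ v ∈ nonarchAbsVal (K := K), v ∉ T → ∀ n,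
    v (orb g F P n).1 ≤ 1 ∧ v (orb g F P n).2 ≤ 1

/-- H1: comparison of heights -/
def S_H1 : Prop := ∀ (K : Type) [Field K] [NumberField K] (P : K × K),
  (∀ v : AbsoluteValue K ℝ, IsPl v → Real.log (v P.1) ≤ logHeight₁ P.1 ∧
    Real.log (v P.2) ≤ logHeight₁ P.2) ∧
  logHeight₁ P.1 ≤ hP P ∧ logHeight₁ P.2 ≤ hP P ∧ hP P ≤ logHeight₁ P.1 + logHeight₁ P.2

/-- MH: heights from inequalities at all places -/
def S_MH : Prop := ∀ (K : Type) [Field K] [NumberField K] (T : Finset (AbsoluteValue K ℝ))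
  (B : ℝ), 1 ≤ B → ∃ C : ℝ, ∀ (a b c : K) (m d : ℕ),
  (∀ v, IsPl v → max 1 (v a) ≤ B * max 1 (v b) ^ m * max 1 (v c) ^ d) →
  (∀ v ∈ nonarchAbsVal (K := K), v ∉ T → max 1 (v a) ≤ max 1 (v b) ^ m * max 1 (v c) ^ d) →
  logHeight₁ a ≤ C + m * logHeight₁ b + d * logHeight₁ c

/-- HU: upper bound for the heights along the orbit -/
def S_HU : Prop := ∀ (K : Type) [Field K] [NumberField K] (g : K[X]) (F : K[X][X]) (P : K × K),
  1 ≤ g.natDegree → 1 ≤ F.natDegree →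
  (∃ C : ℝ, ∀ n, hP (orb g F P n) ≤
    C * ((n : ℝ) + 1) ^ 2 * (max g.natDegree F.natDegree : ℕ) ^ n) ∧
  ∃ C : ℝ, ∀ n, logHeight₁ (orb g F P n).1 ≤ C * ((n : ℝ) + 1) * (g.natDegree : ℝ) ^ n

/-- HB: lower bound for the heights in the base -/
def S_HB : Prop := ∀ (K : Type) [Field K] [NumberField K] (g : K[X]) (F : K[X][X]) (P : K × K),
  2 ≤ g.natDegree → (Set.range fun n => (orb g F P n).1).Infinite →
  ∃ κ : ℝ, 0 < κ ∧ ∀ᶠ n in atTop, κ * (g.natDegree : ℝ) ^ n ≤ logHeight₁ (orb g F P n).1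

/-- HN: heights tend to infinity along an infinite orbit -/
def S_HN : Prop := ∀ (K : Type) [Field K] [NumberField K] (g : K[X]) (F : K[X][X]) (P : K × K),
  (Set.range (orb g F P)).Infinite → Tendsto (fun n => hP (orb g F P n)) atTop atTop

/-- HF: boundedness at all places gives finitely many values -/
def S_HF : Prop := ∀ (K : Type) [Field K] [NumberField K] (T : Finset (AbsoluteValue K ℝ))
  (B : AbsoluteValue K ℝ → ℝ), Set.Finite {a : K | (∀ v, IsPl v → v a ≤ B v) ∧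
    ∀ v ∈ nonarchAbsVal (K := K), v ∉ T → v a ≤ 1}

/-- RT: root test -/
def S_RT : Prop := ∀ (h : ℕ → ℝ) (M κ C : ℝ), 1 ≤ M → 0 < κ →
  (∀ᶠ n in atTop, κ * M ^ n ≤ h n) → (∀ n, h n ≤ C * ((n : ℝ) + 1) ^ 2 * M ^ n) →
  Tendsto (fun n => h n ^ ((1 : ℝ) / n)) atTop (𝓝 M)

/-- DG: degrees of the iterates -/
def S_DG : Prop := ∀ (K : Type) [Field K] (g : K[X]) (F : K[X][X]) (c : K),
  1 ≤ g.natDegree → 1 ≤ F.natDegree → F.coeff F.natDegree = C c → c ≠ 0 →
  ∃ B : ℝ, ∀ n, ((max g.natDegree F.natDegree : ℕ) : ℝ) ^ n ≤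
      (max (gN g n).natDegree (totDeg (FN g F n)) : ℕ) ∧
    ((max (gN g n).natDegree (totDeg (FN g F n)) : ℕ) : ℝ) ≤
      B * ((n : ℝ) + 1) ^ 2 * (max g.natDegree F.natDegree : ℕ) ^ n

/-- CN: centring -/
def S_CN : Prop := ∀ (K : Type) [Field K] [CharZero K] (g : K[X]) (F : K[X][X]) (d : ℕ) (c : K),
  2 ≤ d → F.natDegree = d → F.coeff d = C c → c ≠ 0 → ∃ b : K[X],
  (shiftF g F b).natDegree = d ∧ (shiftF g F b).coeff d = C c ∧
  (shiftF g F b).coeff (d - 1) = 0 ∧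
  (∀ (P : K × K) (n : ℕ), orb g (shiftF g F b) (P.1, P.2 + b.eval P.1) n =
    ((orb g F P n).1, (orb g F P n).2 + b.eval (orb g F P n).1))

/-- DT: density and slow growth are invariant under the change of coordinates -/
def S_DT : Prop := ∀ (K : Type) [Field K] (b : K[X]) (P : ℕ → K × K), Dense2 P →
  Dense2 fun n => ((P n).1, (P n).2 + b.eval (P n).1)

/-- SL: existence of the slope -/
def S_SL : Prop := ∀ (K : Type) [Field K] (g : K[X]) (F : K[X][X]) (d e : ℕ) (c : K),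
  g.natDegree = e → 1 ≤ e → e < d → F.natDegree = d → F.coeff d = C c → c ≠ 0 →
  F.coeff (d - 1) = 0 → (∃ i < d, 0 < (F.coeff i).natDegree) → ∃ p q, Good g F d e p q

/-- AU: fibre maps independent of `x` -/
def S_AU : Prop := ∀ (K : Type) [Field K] [NumberField K] (g : K[X]) (F : K[X][X]) (P : K × K)
  (d : ℕ) (c : K), 1 ≤ g.natDegree → g.natDegree < d → F.natDegree = d → F.coeff d = C c →
  c ≠ 0 → (∀ i, (F.coeff i).natDegree = 0) → (∀ v, IsPl v → SlowAt g F P v) →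
  (Set.range fun n => (orb g F P n).2).Finite

/-- PF: product formula -/
def S_PF : Prop := ∀ (K : Type) [Field K] [NumberField K] (u w : ℕ → K) (U : Ultrafilter ℕ)
  (R : K[X][X]) (T : Finset (AbsoluteValue K ℝ)),
  (∀ v ∈ nonarchAbsVal (K := K), v ∉ T → ∀ n, v (u n) ≤ 1 ∧ v (w n) ≤ 1) →
  (∀ v : AbsoluteValue K ℝ, IsPl v →
    (∃ B : ℝ, ∀ᶠ n in (U : Filter ℕ), v (u n) ≤ B ∧ v (w n) ≤ B) ∨
    (Tendsto (fun n => v (u n)) U atTop ∧ ∃ η : ℝ, 0 < η ∧
      ∀ᶠ n in (U : Filter ℕ), v (R.evalEval (u n) (w n)) ≤ v (u n) ^ (-η))) →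
  (∃ v : AbsoluteValue K ℝ, IsPl v ∧ Tendsto (fun n => v (u n)) U atTop ∧ ∃ η : ℝ, 0 < η ∧
      ∀ᶠ n in (U : Filter ℕ), v (R.evalEval (u n) (w n)) ≤ v (u n) ^ (-η)) →
  ∀ᶠ n in (U : Filter ℕ), R.evalEval (u n) (w n) = 0

/-- M0: slow orbits are not dense, centred non-autonomous case -/
def S_M0 : Prop := ∀ (K : Type) [Field K] [NumberField K] (g : K[X]) (F : K[X][X])
  (d e p q : ℕ) (P : K × K), Good g F d e p q → (∀ v, IsPl v → SlowAt g F P v) →
  ¬ Dense2 (orb g F P)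

/-- M1: slow orbits are not dense -/
def S_M1 : Prop := ∀ (K : Type) [Field K] [NumberField K] (g : K[X]) (F : K[X][X])
  (d e : ℕ) (c : K) (P : K × K), g.natDegree = e → 1 ≤ e → e < d → F.natDegree = d →
  F.coeff d = C c → c ≠ 0 → (∀ v, IsPl v → SlowAt g F P v) → ¬ Dense2 (orb g F P)

/-- FIN: the Kawaguchi-Silverman conjecture for finite polynomial skew products of the plane -/
def S_FIN : Prop := ∀ (K : Type) [Field K] [NumberField K] (g : K[X]) (F : K[X][X]) (c : K)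
  (P : K × K), 1 ≤ g.natDegree → 1 ≤ F.natDegree → F.coeff F.natDegree = C c → c ≠ 0 →
  Dense2 (orb g F P) →
  Tendsto (fun n => ((max (gN g n).natDegree (totDeg (FN g F n)) : ℕ) : ℝ) ^ ((1 : ℝ) / n))
    atTop (𝓝 (max g.natDegree F.natDegree : ℕ)) ∧
  Tendsto (fun n => (hP (orb g F P n) / totalWeight K) ^ ((1 : ℝ) / n))
    atTop (𝓝 (max g.natDegree F.natDegree : ℕ))

end Pool.Agent.Work.MP_91e6de_nt
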