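import Pool.Agent.Work.MP_91e6de_nt.Defs

/-!
# MP_91e6de: statements of the items (formal part)
-/

open Polynomial

namespace Pool.Agent.Work.MP_91e6de_nt

/-! ## Fibres -/

/-- CR: continuity of roots (counting roots in an open disc) -/
def S_CR : Prop := ∀ (W : Type) [NormedField W] [IsUltrametricDist W] [IsAlgClosed W] (d : ℕ)
  (A B : W[X]) (τ c : W), τ ≠ 0 → A.natDegree = d → B.natDegree = d →
  ‖A.leadingCoeff‖ = 1 → ‖B.leadingCoeff‖ = 1 → (∀ β ∈ A.roots, ‖β‖ ≤ ‖τ‖) →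
  (∀ β ∈ B.roots, ‖β‖ ≤ ‖τ‖) → (∀ i ≤ d, ‖(A - B).coeff i‖ < ‖τ‖ ^ (d - i)) → ‖c‖ ≤ ‖τ‖ →
  (disc A.roots c ‖τ‖).card = (disc B.roots c ‖τ‖).card

/-- TV: algebraic elements over a trivially valued field -/
def S_TV : Prop := ∀ (K W : Type) [Field K] [NormedField W] [IsUltrametricDist W] (φ : K →+* W),
  (∀ a, a ≠ 0 → ‖φ a‖ = 1) → ∀ P : K[X], P ≠ 0 → ∀ ζ ∈ (P.map φ).roots, ∀ ζ' ∈ (P.map φ).roots,
  (ζ ≠ 0 → ‖ζ‖ = 1) ∧ (ζ ≠ ζ' → ‖ζ - ζ'‖ = 1)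

/-- X1: values of polynomials at a large element -/
def S_X1 : Prop := ∀ (K W : Type) [Field K] [NormedField W] [IsUltrametricDist W] (φ : K →+* W),
  (∀ a, a ≠ 0 → ‖φ a‖ = 1) → ∀ (a : K[X]) (y : W), 1 < ‖y‖ → a ≠ 0 →
  ‖a.eval₂ φ y‖ = ‖y‖ ^ a.natDegree ∧
  ‖a.eval₂ φ y - φ a.leadingCoeff * y ^ a.natDegree‖ < ‖y‖ ^ a.natDegree

/-- X2: the forward orbit of the base point -/
def S_X2 : Prop := ∀ (K W : Type) [Field K] [NormedField W] [IsUltrametricDist W] (φ : K →+* W),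
  (∀ a, a ≠ 0 → ‖φ a‖ = 1) → ∀ (g : K[X]) (x : W), 1 ≤ g.natDegree → ‖x‖ = Real.exp 1 →
  ∀ j, ‖xs g φ x j‖ = Real.exp ((g.natDegree : ℝ) ^ j)

/-- RB: the roots of `F (y, Y) - b` -/
def S_RB : Prop := ∀ (K W : Type) [Field K] [NormedField W] [IsUltrametricDist W] (φ : K →+* W),
  (∀ a, a ≠ 0 → ‖φ a‖ = 1) → ∀ (g : K[X]) (F : K[X][X]) (d e p q : ℕ), Good g F d e p q →
  ∀ (y b : W) (r : ℝ), 1 < ‖y‖ → 0 < r → r ^ q = ‖y‖ ^ p → ‖b‖ ≤ r ^ e →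
  ∀ β ∈ (fib F φ y - C b).roots, ‖β‖ ≤ r

/-- FD: degree and leading coefficient of `F (y, Y) - b` -/
def S_FD : Prop := ∀ (K W : Type) [Field K] [NormedField W] (φ : K →+* W),
  (∀ a, a ≠ 0 → ‖φ a‖ = 1) → ∀ (g : K[X]) (F : K[X][X]) (d e p q : ℕ), Good g F d e p q →
  ∀ y b : W, (fib F φ y - C b).natDegree = d ∧ ‖(fib F φ y - C b).leadingCoeff‖ = 1

/-- LP1: degree and leading coefficient of the leading form -/
def S_LP1 : Prop := ∀ (K W : Type) [Field K] [NormedField W] (φ : K →+* W),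
  (∀ a, a ≠ 0 → ‖φ a‖ = 1) → ∀ (g : K[X]) (F : K[X][X]) (d e p q : ℕ), Good g F d e p q →
  ∀ y : W, (leadP F p q d φ y).natDegree = d ∧ ‖(leadP F p q d φ y).leadingCoeff‖ = 1

/-- LP2: the leading form is weighted homogeneous -/
def S_LP2 : Prop := ∀ (K W : Type) [Field K] [Field W] (φ : K →+* W)
  (g : K[X]) (F : K[X][X]) (d e p q : ℕ), Good g F d e p q → ∀ y z : W, z ≠ 0 → z ^ q = y →
  (leadP F p q d φ y).roots = (((leadK F p q d).map φ).roots).map fun ζ => z ^ p * ζ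

/-- LP3: the leading form has at least two different roots -/
def S_LP3 : Prop := ∀ (K W : Type) [Field K] [CharZero K] [Field W] (φ : K →+* W)
  (g : K[X]) (F : K[X][X]) (d e p q : ℕ), Good g F d e p q →
  ∀ ζ : W, mcount ((leadK F p q d).map φ).roots ζ + 1 ≤ d

/-- LP: the centres of a fibre -/
def S_LP : Prop := ∀ (K W : Type) [Field K] [CharZero K] [NormedField W] [IsUltrametricDist W]
  [IsAlgClosed W] (φ : K →+* W), (∀ a, a ≠ 0 → ‖φ a‖ = 1) →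
  ∀ (g : K[X]) (F : K[X][X]) (d e p q : ℕ), Good g F d e p q →
  ∀ (y : W) (r : ℝ), 1 < ‖y‖ → 0 < r → r ^ q = ‖y‖ ^ p →
  (leadP F p q d φ y).roots.card = d ∧
  (∀ c ∈ (leadP F p q d φ y).roots, ‖c‖ ≤ r) ∧
  (∀ c ∈ (leadP F p q d φ y).roots, ∀ c' ∈ (leadP F p q d φ y).roots, c ≠ c' → ‖c - c'‖ = r) ∧
  (∀ c ∈ (leadP F p q d φ y).roots, mcount (leadP F p q d φ y).roots c + 1 ≤ d)

/-- DF: `F (y, Y) - b` against its leading form -/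
def S_DF : Prop := ∀ (K W : Type) [Field K] [NormedField W] [IsUltrametricDist W] (φ : K →+* W),
  (∀ a, a ≠ 0 → ‖φ a‖ = 1) → ∀ (g : K[X]) (F : K[X][X]) (d e p q : ℕ), Good g F d e p q →
  ∀ (y b : W) (r : ℝ), 1 < ‖y‖ → 0 < r → r ^ q = ‖y‖ ^ p → ‖b‖ ≤ r ^ e →
  ∀ i ≤ d, ‖((fib F φ y - C b) - leadP F p q d φ y).coeff i‖ < r ^ (d - i)

/-- FS: the system of fibres -/
def S_FS : Prop := ∀ (K W : Type) [Field K] [CharZero K] [NormedField W] [IsUltrametricDist W]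
  [IsAlgClosed W] (φ : K →+* W), (∀ a, a ≠ 0 → ‖φ a‖ = 1) →
  ∀ (g : K[X]) (F : K[X][X]) (d e p q : ℕ), Good g F d e p q → ∀ x : W, ‖x‖ = Real.exp 1 →
  ∃ S : FSys W d e ((p : ℝ) / q), S.A = (fun j => fib F φ (xs g φ x j)) ∧
    S.cen = fun j => (leadP F p q d φ (xs g φ x j)).roots

/-- PH: the iterates in terms of the fibres -/
def S_PH : Prop := ∀ (K W : Type) [Field K] [NormedField W] (φ : K →+* W) (g : K[X])
  (F : K[X][X]) (x : W) (d e : ℕ) (s : ℝ) (S : FSys W d e s),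
  (S.A = fun j => fib F φ (xs g φ x j)) →
  ∀ k, (FN g F k).map (eval₂RingHom φ x) = S.Phi k

/-- FO: a sequence of centres has a finite Galois orbit -/
def S_FO : Prop := ∀ (K L W : Type) [Field K] [CharZero K] [NormedField L] [NormedField W]
  [IsUltrametricDist W] [IsAlgClosed W] [Algebra L W] [Algebra.IsAlgebraic L W] (φ : K →+* L),
  (∀ a, a ≠ 0 → ‖φ a‖ = 1) → (∀ r : L, ‖algebraMap L W r‖ = ‖r‖) →
  (∀ (σ : W ≃ₐ[L] W) (a : W), ‖σ a‖ = ‖a‖) → ∀ x : L, ‖x‖ = Real.exp 1 →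
  ∀ (g : K[X]) (F : K[X][X]) (d e p q : ℕ), Good g F d e p q → ∀ c : ℕ → W,
  (∀ j, c j ∈ (leadP F p q d ((algebraMap L W).comp φ)
    (xs g ((algebraMap L W).comp φ) (algebraMap L W x) j)).roots) →
  Set.Finite {c' : ℕ → W | ∃ σ : W ≃ₐ[L] W, c' = fun j => σ (c j)}

/-! ## Trees of discs -/

/-- CV: every root lies in the disc of a centre -/
def S_CV : Prop := ∀ (W : Type) [NormedField W] [IsUltrametricDist W] [IsAlgClosed W] (d e : ℕ)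
  (s : ℝ) (S : FSys W d e s) (j : ℕ) (b : W), ‖b‖ ≤ rad s e (j + 1) →
  ∀ β ∈ (S.A j - C b).roots, ∃ c ∈ S.cen j, ‖β - c‖ < rad s e j

/-- T1: the multiset `Cset` -/
def S_T1 : Prop := ∀ (W : Type) [NormedField W] (d e : ℕ) (s : ℝ) (S : FSys W d e s) (c : ℕ → W),
  (∀ j, c j ∈ S.cen j) → ∀ n j, (∀ β ∈ S.Cset c n j, ‖β‖ ≤ rad s e j) ∧
  (S.Cset c n j).card = ∏ i ∈ Finset.range n, S.mlt (j + i) (c (j + i))

/-- T3: one step, same centre -/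
def S_T3 : Prop := ∀ (W : Type) [NormedField W] [IsUltrametricDist W] [IsAlgClosed W] (d e : ℕ)
  (s : ℝ) (S : FSys W d e s) (N : BPt W) (Ψ : W[X]) (j : ℕ) (c b : W), c ∈ S.cen j →
  N.N (Ψ - C c) < rad s e j → ‖b‖ ≤ rad s e (j + 1) →
  ((disc (S.A j - C b).roots c (rad s e j)).map fun β => N.N (Ψ - C β)).prod *
    rad s e j ^ (d - S.mlt j c) = N.N ((S.A j).comp Ψ - C b)

/-- T4: one step, different centres -/
def S_T4 : Prop := ∀ (W : Type) [NormedField W] [IsUltrametricDist W] (d e : ℕ)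
  (s : ℝ) (S : FSys W d e s) (N : BPt W) (Ψ : W[X]) (j : ℕ) (c c' β : W), c ∈ S.cen j →
  c' ∈ S.cen j → c ≠ c' → N.N (Ψ - C c) < rad s e j → ‖β - c'‖ < rad s e j →
  N.N (Ψ - C β) = rad s e j

/-- T5: values of the polynomials with roots `Cset` -/
def S_T5 : Prop := ∀ (W : Type) [NormedField W] [IsUltrametricDist W] [IsAlgClosed W] (d e : ℕ)
  (s : ℝ) (S : FSys W d e s) (N : BPt W) (c c' : ℕ → W), (∀ j, c j ∈ S.cen j) →
  (∀ j, c' j ∈ S.cen j) → (∀ j, N.N (S.Phi j - C (c j)) < rad s e j) →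
  (∀ j, N.N (S.Phi j) ≤ rad s e j) → ∀ n j,
  ((S.Cset c' n j).map fun β => N.N (S.Phi j - C β)).prod ≤
    Real.exp (Ufun S.mlt d e s c c' n j)

/-- T6: closed form of the exponent -/
def S_T6 : Prop := ∀ (W : Type) (m : ℕ → W → ℕ) (d e : ℕ) (s : ℝ) (c c' : ℕ → W), 1 ≤ e →
  (∀ j, 1 ≤ m j (c j)) → ∀ n j, Ufun m d e s c c' n j =
    s * (e : ℝ) ^ j * (∏ i ∈ Finset.range n, (m (j + i) (c' (j + i)) : ℝ)) *
      kap (fun l => m (j + l)) d e n (fun l => c (j + l)) (fun l => c' (j + l))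

/-- T7: the value of the polynomial with roots `Cset c' k 0` -/
def S_T7 : Prop := ∀ (W : Type) [NormedField W] [IsUltrametricDist W] [IsAlgClosed W] (d e : ℕ)
  (s : ℝ) (S : FSys W d e s) (N : BPt W) (c c' : ℕ → W), 1 ≤ e → (∀ j, c j ∈ S.cen j) →
  (∀ j, c' j ∈ S.cen j) → (∀ j, N.N (S.Phi j - C (c j)) < rad s e j) →
  (∀ j, N.N (S.Phi j) ≤ rad s e j) → ∀ k,
  N.N ((S.Cset c' k 0).map fun β => X - C β).prod ≤
    Real.exp (s * (S.Cset c' k 0).card * kap S.mlt d e k c c')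

/-- BO: bounded orbits -/
def S_BO : Prop := ∀ (W : Type) [NormedField W] [IsUltrametricDist W] [IsAlgClosed W] (d e : ℕ)
  (s : ℝ) (S : FSys W d e s) (N : BPt W) (B : ℝ), 0 < s → 1 ≤ e → e < d →
  (∀ k, N.N (S.Phi k) ≤ Real.exp (B * (e : ℝ) ^ k)) → ∀ j, N.N (S.Phi j) ≤ rad s e j

/-- CE: the itinerary of a bounded point -/
def S_CE : Prop := ∀ (W : Type) [NormedField W] [IsUltrametricDist W] [IsAlgClosed W] (d e : ℕ)
  (s : ℝ) (S : FSys W d e s) (N : BPt W), 0 < s → 1 ≤ e → e < d →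
  (∀ j, N.N (S.Phi j) ≤ rad s e j) → ∀ j, ∃ c ∈ S.cen j, N.N (S.Phi j - C c) < rad s e j

/-- G1: automorphisms and `Cset` -/
def S_G1 : Prop := ∀ (W : Type) [NormedField W] (d e : ℕ) (s : ℝ) (S : FSys W d e s)
  (σ : W ≃+* W), (∀ a, ‖σ a‖ = ‖a‖) → (∀ j, (S.A j).map (σ : W →+* W) = S.A j) →
  ∀ (c : ℕ → W) (n j : ℕ), (S.Cset c n j).map σ = S.Cset (fun i => σ (c i)) n j

/-- G2: Galois descent of polynomials -/
def S_G2 : Prop := ∀ (L W : Type) [Field L] [CharZero L] [Field W] [IsAlgClosed W] [Algebra L W]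
  [Algebra.IsAlgebraic L W] (Q : W[X]), (∀ σ : W ≃ₐ[L] W, Q.map (σ : W →+* W) = Q) →
  ∃ Q' : L[X], Q'.map (algebraMap L W) = Q

/-- G3: fibres and centres are defined over the base -/
def S_G3 : Prop := ∀ (K L W : Type) [Field K] [Field L] [Field W] [Algebra L W] (φ : K →+* L)
  (x : L) (g : K[X]) (F : K[X][X]) (d p q : ℕ) (σ : W ≃ₐ[L] W) (j : ℕ),
  (fib F ((algebraMap L W).comp φ) (xs g ((algebraMap L W).comp φ) (algebraMap L W x) j)).map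
    (σ : W →+* W) =
    fib F ((algebraMap L W).comp φ) (xs g ((algebraMap L W).comp φ) (algebraMap L W x) j) ∧
  ∀ c : W, mcount (leadP F p q d ((algebraMap L W).comp φ)
      (xs g ((algebraMap L W).comp φ) (algebraMap L W x) j)).roots (σ c) =
    mcount (leadP F p q d ((algebraMap L W).comp φ)
      (xs g ((algebraMap L W).comp φ) (algebraMap L W x) j)).roots c

/-- QB: coefficients of a product of linear factors -/
def S_QB : Prop := ∀ (W : Type) [NormedField W] [IsUltrametricDist W] (M : Multiset W) (r : ℝ),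
  0 < r → (∀ β ∈ M, ‖β‖ ≤ r) → ∀ l ≤ M.card,
  ‖((M.map fun β => X - C β).prod).coeff l‖ ≤ r ^ (M.card - l)

/-! ## Energy -/

open Classical in
/-- E0: sums over prefixes -/
def S_E0 : Prop := ∀ (α : Type) (cen : ℕ → Multiset α) (d : ℕ), (∀ j, (cen j).card = d) →
  ∀ E : Finset (ℕ → α), (∀ w ∈ E, ∀ l, w l ∈ cen l) → ∀ i : ℕ,
  ∑ u ∈ E.image (fun w (l : Fin i) => w l), ∏ l : Fin i, mcount (cen l) (u l) ≤ d ^ i

open Classical in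
/-- E1: the energy is negative for large `k` -/
def S_E1 : Prop := ∀ (α : Type) (E : Finset (ℕ → α)) (m : ℕ → α → ℕ) (d e : ℕ), E.Nonempty →
  1 ≤ e → e < d → (∀ w ∈ E, ∀ l, 1 ≤ m l (w l) ∧ m l (w l) + 1 ≤ d) →
  (∀ i : ℕ, ∑ u ∈ E.image (fun w (l : Fin i) => w l), ∏ l : Fin i, m l (u l) ≤ d ^ i) →
  ∃ k0, ∀ k ≥ k0, ∀ ν : (ℕ → α) → ℝ, (∀ w ∈ E, 0 ≤ ν w) → ∑ w ∈ E, ν w = 1 →
  ∑ w ∈ E, ∑ w' ∈ E, ν w * ν w' * kap m d e k w w' < 0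

/-- K1: an equilibrium measure -/
def S_K1 : Prop := ∀ (E : Type) [Fintype E] [Nonempty E] (κ : E → E → ℝ),
  (∀ w w', κ w w' = κ w' w) →
  (∀ ν : E → ℝ, (∀ w, 0 ≤ ν w) → ∑ w, ν w = 1 → ∑ w, ∑ w', ν w * ν w' * κ w w' < 0) →
  ∃ ν : E → ℝ, (∀ w, 0 ≤ ν w) ∧ ∑ w, ν w = 1 ∧ ∀ w, ∑ w', ν w' * κ w w' < 0

/-- K2: integer invariant weights -/
def S_K2 : Prop := ∀ (E : Type) [Fintype E] (κ : E → E → ℝ) (cc : E → ℕ) (ν : E → ℝ)
  (H : Subgroup (Equiv.Perm E)), (∀ w, 1 ≤ cc w) → (∀ w, 0 ≤ ν w) →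
  (∀ w, ∑ w', ν w' * κ w w' < 0) → (∀ h ∈ H, ∀ w w', κ (h w) (h w') = κ w w') →
  (∀ h ∈ H, ∀ w, cc (h w) = cc w) →
  ∃ n : E → ℕ, (∀ h ∈ H, ∀ w, n (h w) = n w) ∧ ∀ w, ∑ w', (n w' : ℝ) * cc w' * κ w w' < 0

/-! ## The pigeonhole -/

/-- P0: dimension count -/
def S_P0 : Prop := ∀ (K L : Type) [Field K] [NormedField L] [IsUltrametricDist L] (φ : K →+* L)
  (x : L), (∀ a, a ≠ 0 → ‖φ a‖ = 1) → ‖x‖ = Real.exp 1 →
  (∀ r : L, r ≠ 0 → ∃ (n : ℤ) (a : K), a ≠ 0 ∧ ‖r - φ a * x ^ n‖ < ‖r‖) →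
  ∀ (V : Type) [AddCommGroup V] [Module K V] [FiniteDimensional K V] (ι : Type) [Fintype ι]
  (T : ι → V →+ L) (a b : ι → ℤ), (∀ α (t : K) v, T α (t • v) = φ t * T α v) →
  (∀ α v, ‖T α v‖ ≤ Real.exp (a α)) → ∑ α, (a α - b α).toNat < Module.finrank K V →
  ∃ v : V, v ≠ 0 ∧ ∀ α, ‖T α v‖ ≤ Real.exp (b α)

/-- P1: division by a monic polynomial and Gauss norms -/
def S_P1 : Prop := ∀ (L : Type) [NormedField L] [IsUltrametricDist L] (s M : ℝ) (Q A : L[X]),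
  Q.Monic → (∀ l ≤ Q.natDegree, ‖Q.coeff l‖ ≤ Real.exp (s * ((Q.natDegree : ℝ) - l))) →
  (∀ n, ‖A.coeff n‖ ≤ Real.exp (M - s * n)) → ∀ n,
  ‖(A /ₘ Q).coeff n‖ ≤ Real.exp (M - s * Q.natDegree - s * n) ∧
  ‖(A %ₘ Q).coeff n‖ ≤ Real.exp (M - s * n)

/-- P2: `Q`-adic digits -/
def S_P2 : Prop := ∀ (L : Type) [NormedField L] [IsUltrametricDist L] (Q : L[X]), Q.Monic →
  1 ≤ Q.natDegree →
  (∀ (J : ℕ) (A : L[X]), A.degree < ((J * Q.natDegree : ℕ) : WithBot ℕ) →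
    A = ∑ j ∈ Finset.range J, ∑ l ∈ Finset.range Q.natDegree,
      C (digit Q j l A) * X ^ l * Q ^ j) ∧
  (∀ (j l : ℕ) (A B : L[X]), digit Q j l (A + B) = digit Q j l A + digit Q j l B) ∧
  (∀ (j l : ℕ) (t : L) (A : L[X]), digit Q j l (C t * A) = t * digit Q j l A) ∧
  ∀ (s M : ℝ) (A : L[X]),
    (∀ l ≤ Q.natDegree, ‖Q.coeff l‖ ≤ Real.exp (s * ((Q.natDegree : ℝ) - l))) →
    (∀ n, ‖A.coeff n‖ ≤ Real.exp (M - s * n)) →
    ∀ j l, ‖digit Q j l A‖ ≤ Real.exp (M - s * ((Q.natDegree : ℝ) * j + l))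

/-- P3: the auxiliary polynomial -/
def S_P3 : Prop := ∀ (K L : Type) [Field K] [NormedField L] [IsUltrametricDist L] (φ : K →+* L)
  (x : L), (∀ a, a ≠ 0 → ‖φ a‖ = 1) → ‖x‖ = Real.exp 1 →
  (∀ r : L, r ≠ 0 → ∃ (n : ℤ) (a : K), a ≠ 0 ∧ ‖r - φ a * x ^ n‖ < ‖r‖) →
  ∀ (s η : ℝ), 0 < s → 0 < η → ∀ Q : L[X], Q.Monic → 1 ≤ Q.natDegree →
  (∀ l ≤ Q.natDegree, ‖Q.coeff l‖ ≤ Real.exp (s * ((Q.natDegree : ℝ) - l))) →
  ∃ R : K[X][X], R ≠ 0 ∧ ∀ N : BPt L, N.N X ≤ Real.exp s → N.N Q ≤ Real.exp (-η) →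
    N.N (R.map (eval₂RingHom φ x)) < 1

/-- Core: points with bounded orbits lie on a curve (infinitesimally) -/
def S_Core : Prop := ∀ (K L W : Type) [Field K] [CharZero K] [NormedField L] [IsUltrametricDist L]
  [NormedField W] [IsUltrametricDist W] [IsAlgClosed W] [Algebra L W] [Algebra.IsAlgebraic L W]
  (φ : K →+* L) (x : L), (∀ a, a ≠ 0 → ‖φ a‖ = 1) → ‖x‖ = Real.exp 1 →
  (∀ r : L, r ≠ 0 → ∃ (n : ℤ) (a : K), a ≠ 0 ∧ ‖r - φ a * x ^ n‖ < ‖r‖) →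
  (∀ r : L, ‖algebraMap L W r‖ = ‖r‖) → (∀ (σ : W ≃ₐ[L] W) (a : W), ‖σ a‖ = ‖a‖) →
  ∀ (g : K[X]) (F : K[X][X]) (d e p q : ℕ), Good g F d e p q →
  ∀ (ι : Type) [Finite ι] (N : ι → BPt W) (B : ℝ),
  (∀ i k, (N i).N ((FN g F k).map
    (eval₂RingHom ((algebraMap L W).comp φ) (algebraMap L W x))) ≤ Real.exp (B * (e : ℝ) ^ k)) →
  ∃ R : K[X][X], R ≠ 0 ∧ ∀ i,
    (N i).N (R.map (eval₂RingHom ((algebraMap L W).comp φ) (algebraMap L W x))) < 1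

/-! ## Fields -/

/-- B1: the completion of `K(x)` at infinity -/
def S_B1 : Prop := ∀ (K : Type) [Field K], ∃ (L : Type) (_ : NormedField L) (_ : CompleteSpace L)
  (_ : IsUltrametricDist L) (φ : K →+* L) (x : L), (∀ a, a ≠ 0 → ‖φ a‖ = 1) ∧
  ‖x‖ = Real.exp 1 ∧ (∀ r : L, r ≠ 0 → ∃ (n : ℤ) (a : K), a ≠ 0 ∧ ‖r - φ a * x ^ n‖ < ‖r‖) ∧
  ∀ (k : Type) (_ : NormedField k) (_ : CompleteSpace k) (_ : IsUltrametricDist k)
    (φ' : K →+* k) (x' : k), (∀ a, a ≠ 0 → ‖φ' a‖ = 1) → ‖x'‖ = Real.exp 1 →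
    ∃ θ : L →+* k, (∀ r, ‖θ r‖ = ‖r‖) ∧ (∀ a, θ (φ a) = φ' a) ∧ θ x = x'

/-- B2: algebraic closure of a complete field, and its embeddings -/
def S_B2 : Prop := ∀ (L : Type) [NormedField L] [CompleteSpace L] [IsUltrametricDist L],
  (∃ x : L, 1 < ‖x‖) → ∃ (W : Type) (_ : NormedField W) (_ : IsUltrametricDist W)
  (_ : IsAlgClosed W) (_ : Algebra L W) (_ : Algebra.IsAlgebraic L W),
  (∀ r : L, ‖algebraMap L W r‖ = ‖r‖) ∧ (∀ (σ : W ≃ₐ[L] W) (a : W), ‖σ a‖ = ‖a‖) ∧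
  ∀ (k : Type) (_ : NormedField k) (_ : CompleteSpace k) (_ : IsUltrametricDist k) (θ : L →+* k),
    (∀ r, ‖θ r‖ = ‖r‖) → ∀ y : k, ∃ N : BPt W, ∀ A : L[X],
      N.N (A.map (algebraMap L W)) = ‖(A.map θ).eval y‖

/-- B3: the complete field of a seminorm -/
def S_B3 : Prop := ∀ (K : Type) [Field K] (N : LimSn K), ∃ (k : Type) (_ : NormedField k)
  (_ : CompleteSpace k) (_ : IsUltrametricDist k) (ψ : K[X][X] →+* k), ∀ R, ‖ψ R‖ = N.N R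

/-- ThmA: the formal theorem -/
def S_ThmA : Prop := ∀ (K : Type) [Field K] [CharZero K] (g : K[X]) (F : K[X][X])
  (d e p q : ℕ), Good g F d e p q → ∀ (ι : Type) [Finite ι] (N : ι → LimSn K) (B : ℝ),
  (∀ i k, (N i).N (FN g F k) ≤ Real.exp (B * (e : ℝ) ^ k)) →
  ∃ R : K[X][X], R ≠ 0 ∧ ∀ i, (N i).N R < 1

end Pool.Agent.Work.MP_91e6de_nt
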