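import Pool.Agent.Work.MP_91e6de_nt.Stmts

/-!
# Item B3: the field of a seminorm
-/

open Polynomial
open scoped NNReal

namespace Pool.Agent.Work.MP_91e6de_nt

namespace NB3

/-- the seminorm as a valuation -/
noncomputable def val {K : Type} [Field K] (N : LimSn K) : Valuation (K[X][X]) ℝ≥0 where
  toFun f := ⟨N.N f, N.nonneg f⟩
  map_zero' := by
    apply NNReal.eq
    exact N.map_zero
  map_one' := by
    apply NNReal.eq
    have := N.map_CC 1 one_ne_zero
    simp only [map_one] at this
    exact this
  map_mul' f g := by
    apply NNReal.eq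
    exact N.map_mul f g
  map_add_le_max' f g := by
    rcases le_max_iff.1 (N.add_le f g) with h | h
    · exact le_max_of_le_left h
    · exact le_max_of_le_right h

theorem ultra {F : Type} [Field F] (a : AbsoluteValue F ℝ) (h : ∀ x y, a (x + y) ≤ max (a x) (a y)) :
    IsUltrametricDist a.Completion := by
  constructor
  intro x y z
  refine UniformSpace.Completion.induction_on₃ x y z ?_ ?_
  · exact isClosed_le (by fun_prop) (by fun_prop)
  · intro x y z
    rw [UniformSpace.Completion.dist_eq, UniformSpace.Completion.dist_eq,
      UniformSpace.Completion.dist_eq, dist_eq_norm, dist_eq_norm, dist_eq_norm]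
    have := h (WithAbs.ofAbs (x - y)) (WithAbs.ofAbs (y - z))
    have e : (WithAbs.ofAbs (x - y)) + (WithAbs.ofAbs (y - z)) = WithAbs.ofAbs (x - z) := by
      simp
    rw [e] at this
    exact this

end NB3

theorem pr_B3 : S_B3 := by
  intro K _ N
  set v := NB3.val N with hv
  set Q := K[X][X] ⧸ v.supp with hQ
  set w : Valuation Q ℝ≥0 := v.onQuot le_rfl with hw
  have hS : nonZeroDivisors Q ≤ w.supp.primeCompl := by
    intro x hx hx'
    rw [SetLike.mem_coe, hw, Valuation.supp_quot_supp] at hx'
    exact nonZeroDivisors.ne_zero hx hx'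
  set u : Valuation (FractionRing Q) ℝ≥0 := w.extendToLocalization hS (FractionRing Q) with hu
  let a : AbsoluteValue (FractionRing Q) ℝ :=
    { toFun := fun x => (u x : ℝ)
      map_mul' := fun x y => by rw [map_mul, NNReal.coe_mul]
      nonneg' := fun x => NNReal.coe_nonneg _
      eq_zero' := fun x => by
        rw [NNReal.coe_eq_zero, Valuation.zero_iff]
      add_le' := fun x y => by
        have := u.map_add x y
        rw [← NNReal.coe_le_coe, NNReal.coe_max] at this
        refine this.trans (max_le ?_ ?_)
        · exact le_add_of_nonneg_right (NNReal.coe_nonneg _)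
        · exact le_add_of_nonneg_left (NNReal.coe_nonneg _) }
  have ha : ∀ x y, a (x + y) ≤ max (a x) (a y) := fun x y => by
    have := u.map_add x y
    rw [← NNReal.coe_le_coe, NNReal.coe_max] at this
    exact this
  refine ⟨a.Completion, inferInstance, inferInstance, NB3.ultra a ha,
    (UniformSpace.Completion.coeRingHom.comp (WithAbs.equiv a).symm.toRingHom).comp
      ((algebraMap Q (FractionRing Q)).comp (Ideal.Quotient.mk v.supp)), ?_⟩
  intro R
  show ‖((WithAbs.toAbs a (algebraMap Q (FractionRing Q) (Ideal.Quotient.mk v.supp R)) :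
    WithAbs a) : a.Completion)‖ = _
  rw [UniformSpace.Completion.norm_coe]
  show ((u (algebraMap Q (FractionRing Q) (Ideal.Quotient.mk v.supp R)) : ℝ≥0) : ℝ) = _
  rw [hu, Valuation.extendToLocalization_apply_map_apply]
  rfl

end Pool.Agent.Work.MP_91e6de_nt
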