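import Pool.Agent.Work.MP_91e6de_nt.Stmts2

/-!
# IN: integrality outside a finite set of places
-/

open Polynomial Filter Topology Height Height.AdmissibleAbsValues

namespace Pool.Agent.Work.MP_91e6de_nt

namespace NIN

variable {K : Type} [Field K]

/-- the elements of absolute value at most one -/
def ring (v : AbsoluteValue K ℝ) (hv : IsNonarchimedean v) : Subring K where
  carrier := {x | v x ≤ 1}
  mul_mem' := by
    intro a b ha hb
    simp only [Set.mem_ofPred_eq, map_mul] at *
    exact mul_le_one₀ ha (v.nonneg _) hb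
  one_mem' := by simp
  add_mem' := by
    intro a b ha hb
    simp only [Set.mem_ofPred_eq] at *
    exact (hv a b).trans (max_le ha hb)
  zero_mem' := by simp
  neg_mem' := by
    intro a ha
    simpa using ha

theorem eval_mem (S : Subring K) (a : K[X]) (ha : ∀ i, a.coeff i ∈ S) (x : K) (hx : x ∈ S) :
    a.eval x ∈ S := by
  rw [Polynomial.eval_eq_sum, Polynomial.sum]
  exact S.sum_mem fun i _ => S.mul_mem (ha i) (S.pow_mem hx i)

theorem evalEval_mem (S : Subring K) (F : K[X][X]) (hF : ∀ i j, (F.coeff i).coeff j ∈ S)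
    (x y : K) (hx : x ∈ S) (hy : y ∈ S) : F.evalEval x y ∈ S := by
  rw [Polynomial.evalEval, Polynomial.eval_eq_sum (p := F), Polynomial.sum,
    Polynomial.eval_finsetSum]
  refine S.sum_mem fun i _ => ?_
  rw [Polynomial.eval_mul, Polynomial.eval_pow, Polynomial.eval_C]
  exact S.mul_mem (eval_mem S _ (hF i) x hx) (S.pow_mem hy i)

variable [NumberField K]

theorem one (a : K) : ∃ T : Finset (AbsoluteValue K ℝ), ∀ v ∈ nonarchAbsVal (K := K),
    v ∉ T → v a ≤ 1 := by
  classical
  by_cases h : a = 0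
  · exact ⟨∅, fun v _ _ => by simp [h]⟩
  · have hf : (Function.mulSupport (fun v : nonarchAbsVal (K := K) ↦ v.val a)).Finite :=
      hasFiniteMulSupport h
    refine ⟨hf.toFinset.image Subtype.val, fun v hv hvT => ?_⟩
    by_contra hc
    apply hvT
    rw [Finset.mem_image]
    refine ⟨⟨v, hv⟩, ?_, rfl⟩
    rw [Set.Finite.mem_toFinset, Function.mem_mulSupport]
    intro h1
    exact hc (le_of_eq h1)

theorem many (s : Finset K) : ∃ T : Finset (AbsoluteValue K ℝ), ∀ v ∈ nonarchAbsVal (K := K),
    v ∉ T → ∀ a ∈ s, v a ≤ 1 := by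
  classical
  choose T hT using fun a : K => one a
  refine ⟨s.biUnion T, fun v hv hvT a ha => hT a v hv fun h => hvT ?_⟩
  rw [Finset.mem_biUnion]
  exact ⟨a, ha, h⟩

end NIN

open NIN in
/-- IN -/
theorem pr_IN : S_IN := by
  classical
  intro K _ _ g F P
  obtain ⟨T1, h1⟩ := many ({P.1, P.2} : Finset K)
  obtain ⟨T2, h2⟩ := many (g.support.image g.coeff)
  obtain ⟨T3, h3⟩ := many (F.support.biUnion fun i => (F.coeff i).support.image (F.coeff i).coeff)
  refine ⟨T1 ∪ T2 ∪ T3, fun v hv hvT n => ?_⟩
  simp only [Finset.mem_union, not_or] at hvT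
  have hna : IsNonarchimedean v := isNonarchimedean v hv
  have hg : ∀ i, g.coeff i ∈ ring v hna := by
    intro i
    by_cases hi : i ∈ g.support
    · exact h2 v hv hvT.1.2 _ (Finset.mem_image_of_mem _ hi)
    · rw [notMem_support_iff.mp hi]
      exact (ring v hna).zero_mem
  have hF : ∀ i j, (F.coeff i).coeff j ∈ ring v hna := by
    intro i j
    by_cases hi : i ∈ F.support
    · by_cases hj : j ∈ (F.coeff i).support
      · exact h3 v hv hvT.2 _ (Finset.mem_biUnion.mpr ⟨i, hi, Finset.mem_image_of_mem _ hj⟩)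
      · rw [notMem_support_iff.mp hj]
        exact (ring v hna).zero_mem
    · rw [notMem_support_iff.mp hi, coeff_zero]
      exact (ring v hna).zero_mem
  have key : (orb g F P n).1 ∈ ring v hna ∧ (orb g F P n).2 ∈ ring v hna := by
    induction n with
    | zero =>
      exact ⟨h1 v hv hvT.1.1 _ (by simp [orb]), h1 v hv hvT.1.1 _ (by simp [orb])⟩
    | succ n ih =>
      exact ⟨eval_mem _ g hg _ ih.1, evalEval_mem _ F hF _ _ ih.1 ih.2⟩
  exact key

end Pool.Agent.Work.MP_91e6de_nt
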