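import Pool.Agent.Work.MP_91e6de_nt.Stmts2

/-!
# LM: the limit seminorm
-/

open Polynomial Filter Topology

namespace Pool.Agent.Work.MP_91e6de_nt

namespace NLM

/-- polynomial growth -/
def Gr {K : Type} [Field K] (v : AbsoluteValue K ℝ) (U : Ultrafilter ℕ) (u w : ℕ → K)
    (R : K[X][X]) : Prop :=
  ∃ (B : ℝ) (m : ℕ), 1 ≤ B ∧
    ∀ᶠ n in (U : Filter ℕ), v (R.evalEval (u n) (w n)) ≤ B * v (u n) ^ m

variable {K : Type} [Field K] {v : AbsoluteValue K ℝ} {U : Ultrafilter ℕ} {u w : ℕ → K}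

theorem Gr.add (hu : ∀ᶠ n in (U : Filter ℕ), 1 ≤ v (u n)) {R S : K[X][X]} (hR : Gr v U u w R)
    (hS : Gr v U u w S) : Gr v U u w (R + S) := by
  obtain ⟨B, m, hB, h1⟩ := hR
  obtain ⟨B', m', hB', h2⟩ := hS
  refine ⟨B + B', max m m', by linarith, ?_⟩
  filter_upwards [hu, h1, h2] with n h0 h1 h2
  rw [evalEval_add]
  refine (v.add_le _ _).trans ?_
  have h3 : v (u n) ^ m ≤ v (u n) ^ (max m m') := pow_le_pow_right₀ h0 (le_max_left _ _)
  have h4 : v (u n) ^ m' ≤ v (u n) ^ (max m m') := pow_le_pow_right₀ h0 (le_max_right _ _)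
  have h5 : B * v (u n) ^ m ≤ B * v (u n) ^ (max m m') :=
    mul_le_mul_of_nonneg_left h3 (by linarith)
  have h6 : B' * v (u n) ^ m' ≤ B' * v (u n) ^ (max m m') :=
    mul_le_mul_of_nonneg_left h4 (by linarith)
  rw [add_mul]
  linarith

theorem Gr.mul (hu : ∀ᶠ n in (U : Filter ℕ), 1 ≤ v (u n)) {R S : K[X][X]} (hR : Gr v U u w R)
    (hS : Gr v U u w S) : Gr v U u w (R * S) := by
  obtain ⟨B, m, hB, h1⟩ := hR
  obtain ⟨B', m', hB', h2⟩ := hS
  refine ⟨B * B', m + m', by nlinarith, ?_⟩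
  filter_upwards [hu, h1, h2] with n h0 h1 h2
  rw [evalEval_mul, map_mul, pow_add]
  have h3 : v (R.evalEval (u n) (w n)) * v (S.evalEval (u n) (w n)) ≤
      (B * v (u n) ^ m) * (B' * v (u n) ^ m') := by
    apply mul_le_mul h1 h2 (v.nonneg _)
    have : 0 ≤ v (u n) ^ m := by positivity
    positivity
  calc _ ≤ _ := h3
    _ = _ := by ring

theorem gr_all (hu : ∀ᶠ n in (U : Filter ℕ), 1 ≤ v (u n)) (A : ℕ) (B : ℝ)
    (hw : ∀ᶠ n in (U : Filter ℕ), v (w n) ≤ B * v (u n) ^ A) (R : K[X][X]) :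
    Gr v U u w R := by
  have hX : Gr v U u w (C X) := by
    refine ⟨1, 1, le_rfl, ?_⟩
    filter_upwards with n
    rw [evalEval_C, eval_X]
    simp
  have hY : Gr v U u w (X : K[X][X]) := by
    refine ⟨max B 1, A, le_max_right _ _, ?_⟩
    filter_upwards [hw] with n hn
    rw [evalEval_X]
    refine hn.trans ?_
    apply mul_le_mul_of_nonneg_right (le_max_left _ _)
    have := v.nonneg (u n)
    positivity
  have hCC : ∀ a : K, Gr v U u w (C (C a)) := by
    intro a
    refine ⟨max (v a) 1, 0, le_max_right _ _, ?_⟩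
    filter_upwards with n
    rw [evalEval_C, eval_C, pow_zero, mul_one]
    exact le_max_left _ _
  have hC : ∀ p : K[X], Gr v U u w (C p) := by
    intro p
    induction p using Polynomial.induction_on with
    | C a => exact hCC a
    | add p q hp hq => rw [C_add]; exact hp.add hu hq
    | monomial n a ih =>
      rw [pow_succ, ← mul_assoc, C_mul]
      exact ih.mul hu hX
  induction R using Polynomial.induction_on with
  | C a => exact hC a
  | add p q hp hq => exact hp.add hu hq
  | monomial n a ih =>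
    rw [pow_succ, ← mul_assoc]
    exact ih.mul hu hY

end NLM

open NLM in
theorem pr_LM : S_LM := by
  intro K _ v U u w A B htend hw
  have hu1 : ∀ᶠ n in (U : Filter ℕ), 1 ≤ v (u n) := htend.eventually_ge_atTop 1
  have ht : Tendsto (fun n => Real.log (v (u n))) U atTop := Real.tendsto_log_atTop.comp htend
  have ht1 : ∀ᶠ n in (U : Filter ℕ), 1 ≤ Real.log (v (u n)) := ht.eventually_ge_atTop 1
  have htinv : Tendsto (fun n => (Real.log (v (u n)))⁻¹) U (𝓝 0) :=
    tendsto_inv_atTop_zero.comp ht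
  have hgrow := gr_all (v := v) (U := U) (u := u) (w := w) hu1 A B hw
  let f : K[X][X] → ℕ → ℝ := fun R n => v (R.evalEval (u n) (w n)) ^ (Real.log (v (u n)))⁻¹
  have hf0 : ∀ R n, 0 ≤ f R n := fun R n => Real.rpow_nonneg (v.nonneg _) _
  -- values at powers of `v (u n)`
  have hpow : ∀ᶠ n in (U : Filter ℕ), ∀ M : ℝ,
      (v (u n) ^ M) ^ (Real.log (v (u n)))⁻¹ = Real.exp M := by
    filter_upwards [hu1, ht1] with n h1 h2 M
    have h3 : 0 < v (u n) := by linarith
    rw [← Real.rpow_mul h3.le, Real.rpow_def_of_pos h3]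
    congr 1
    field_simp
  -- comparison with a bound
  have hub : ∀ (R : K[X][X]) (M B' : ℝ), 0 ≤ B' →
      (∀ᶠ n in (U : Filter ℕ), v (R.evalEval (u n) (w n)) ≤ B' * v (u n) ^ M) →
      ∀ᶠ n in (U : Filter ℕ), f R n ≤ B' ^ (Real.log (v (u n)))⁻¹ * Real.exp M := by
    intro R M B' hB' h
    filter_upwards [h, hpow, hu1, ht1] with n h1 h2 h3 h4
    rw [← h2 M, ← Real.mul_rpow hB' (by positivity)]
    exact Real.rpow_le_rpow (v.nonneg _) h1 (by positivity)
  have hconst : ∀ c : ℝ, 0 < c →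
      Tendsto (fun n => c ^ (Real.log (v (u n)))⁻¹) U (𝓝 1) := by
    intro c hc
    have h1 := (Real.continuousAt_const_rpow hc.ne' (b := 0)).tendsto.comp htinv
    rw [Real.rpow_zero] at h1
    exact h1
  -- existence of the limits
  have hlim : ∀ R, ∃ L, 0 ≤ L ∧ Tendsto (f R) U (𝓝 L) := by
    intro R
    obtain ⟨B1, m, hB1, h1⟩ := hgrow R
    have h2 := hub R m B1 (by linarith) (by simpa [Real.rpow_natCast] using h1)
    have h3 : ∀ᶠ n in (U : Filter ℕ), f R n ∈ Set.Icc 0 (B1 * Real.exp m) := by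
      filter_upwards [h2, ht1] with n h4 h5
      refine ⟨hf0 R n, h4.trans ?_⟩
      apply mul_le_mul_of_nonneg_right _ (Real.exp_pos _).le
      calc B1 ^ (Real.log (v (u n)))⁻¹ ≤ B1 ^ (1 : ℝ) :=
            Real.rpow_le_rpow_of_exponent_le hB1 (inv_le_one_of_one_le₀ h5)
        _ = B1 := Real.rpow_one _
    obtain ⟨L, hL1, hL2⟩ := (isCompact_Icc (a := (0 : ℝ)) (b := B1 * Real.exp m)).ultrafilter_le_nhds
      (U.map (f R)) (by
        rw [Filter.le_principal_iff]
        exact h3)
    exact ⟨L, hL1.1, hL2⟩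
  choose N hN0 hN using hlim
  refine ⟨⟨N, hN0, ?_, ?_, ?_, ?_, ?_⟩, ?_, ?_⟩
  · -- zero
    refine tendsto_nhds_unique (hN 0) ?_
    apply Tendsto.congr' (f₁ := fun _ => (0 : ℝ)) _ tendsto_const_nhds
    filter_upwards [ht1] with n hn
    show (0 : ℝ) = v ((0 : K[X][X]).evalEval (u n) (w n)) ^ (Real.log (v (u n)))⁻¹
    rw [evalEval_zero, map_zero, Real.zero_rpow]
    positivity
  · -- mul
    intro a b
    refine tendsto_nhds_unique (hN (a * b)) (((hN a).mul (hN b)).congr fun n => ?_)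
    show _ = v ((a * b).evalEval (u n) (w n)) ^ (Real.log (v (u n)))⁻¹
    rw [evalEval_mul, map_mul, Real.mul_rpow (v.nonneg _) (v.nonneg _)]
  · -- add
    intro a b
    have h1 : Tendsto (fun n => (2 : ℝ) ^ (Real.log (v (u n)))⁻¹ * max (f a n) (f b n)) U
        (𝓝 (1 * max (N a) (N b))) := (hconst 2 (by norm_num)).mul ((hN a).max (hN b))
    rw [one_mul] at h1
    refine le_of_tendsto_of_tendsto (hN (a + b)) h1 ?_
    filter_upwards [ht1] with n hn
    have h2 : 0 ≤ (Real.log (v (u n)))⁻¹ := by positivity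
    have hva := v.nonneg (a.evalEval (u n) (w n))
    have hvb := v.nonneg (b.evalEval (u n) (w n))
    have h3 : v ((a + b).evalEval (u n) (w n)) ≤
        2 * max (v (a.evalEval (u n) (w n))) (v (b.evalEval (u n) (w n))) := by
      rw [evalEval_add]
      refine (v.add_le _ _).trans ?_
      have := le_max_left (v (a.evalEval (u n) (w n))) (v (b.evalEval (u n) (w n)))
      have := le_max_right (v (a.evalEval (u n) (w n))) (v (b.evalEval (u n) (w n)))
      linarith
    have h4 : f (a + b) n ≤ (2 * max (v (a.evalEval (u n) (w n))) (v (b.evalEval (u n) (w n))))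
        ^ (Real.log (v (u n)))⁻¹ := Real.rpow_le_rpow (v.nonneg _) h3 h2
    refine h4.trans (le_of_eq ?_)
    rw [Real.mul_rpow (by norm_num) (le_max_of_le_left hva)]
    congr 1
    rcases le_total (v (a.evalEval (u n) (w n))) (v (b.evalEval (u n) (w n))) with h | h
    · rw [max_eq_right h, max_eq_right (Real.rpow_le_rpow hva h h2)]
    · rw [max_eq_left h, max_eq_left (Real.rpow_le_rpow hvb h h2)]
  · -- constants
    intro a ha
    refine tendsto_nhds_unique (hN (C (C a))) ((hconst (v a) (v.pos ha)).congr fun n => ?_)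
    show _ = v ((C (C a)).evalEval (u n) (w n)) ^ (Real.log (v (u n)))⁻¹
    rw [evalEval_C, eval_C]
  · -- X
    refine tendsto_nhds_unique (hN (C X)) ?_
    apply Tendsto.congr' (f₁ := fun _ => Real.exp 1) _ tendsto_const_nhds
    filter_upwards [hpow] with n hn
    show Real.exp 1 = v ((C X).evalEval (u n) (w n)) ^ (Real.log (v (u n)))⁻¹
    rw [evalEval_C, eval_X, ← hn 1, Real.rpow_one]
  · -- first property
    intro R hR
    obtain ⟨c, hc1, hc2⟩ := exists_between hR
    have hc0 : 0 < c := lt_of_le_of_lt (hN0 R) hc1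
    refine ⟨-Real.log c, by have := Real.log_neg hc0 hc2; linarith, ?_⟩
    filter_upwards [(hN R).eventually_lt_const hc1, ht1, hu1] with n h1 h2 h3
    have h4 : 0 < Real.log (v (u n)) := by linarith
    have h5 : 0 < v (u n) := by linarith
    have h6 : v (R.evalEval (u n) (w n)) = f R n ^ Real.log (v (u n)) := by
      show _ = (v (R.evalEval (u n) (w n)) ^ (Real.log (v (u n)))⁻¹) ^ Real.log (v (u n))
      rw [← Real.rpow_mul (v.nonneg _), inv_mul_cancel₀ h4.ne', Real.rpow_one]
    rw [h6, neg_neg]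
    refine (Real.rpow_le_rpow (hf0 R n) h1.le h4.le).trans (le_of_eq ?_)
    rw [Real.rpow_def_of_pos hc0, Real.rpow_def_of_pos h5, mul_comm]
  · -- second property
    intro R M B' h
    have h1 := hub R M (max B' 1) (by positivity) (by
      filter_upwards [h, hu1] with n h2 h3
      refine h2.trans (mul_le_mul_of_nonneg_right (le_max_left _ _) (by positivity)))
    have h2 := (hconst (max B' 1) (by positivity)).mul_const (Real.exp M)
    rw [one_mul] at h2
    exact le_of_tendsto_of_tendsto (hN R) h2 h1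

end Pool.Agent.Work.MP_91e6de_nt
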