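import Pool.Agent.Work.MP_91e6de_nt.Stmts2

/-!
# Item PF: product formula
-/

open Polynomial Filter Topology Height Height.AdmissibleAbsValues

namespace Pool.Agent.Work.MP_91e6de_nt

namespace NPF

variable {K : Type} [Field K]

/-- the subring of a nonarchimedean absolute value -/
def ring (v : AbsoluteValue K ℝ) (hv : IsNonarchimedean v) : Subring K where
  carrier := {z | v z ≤ 1}
  mul_mem' := by
    intro a b ha hb
    show v (a * b) ≤ 1
    rw [v.map_mul]
    exact mul_le_one₀ ha (v.nonneg _) hb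
  one_mem' := by
    show v 1 ≤ 1
    rw [v.map_one]
  add_mem' := by
    intro a b ha hb
    exact (hv a b).trans (max_le ha hb)
  zero_mem' := by
    show v 0 ≤ 1
    rw [v.map_zero]
    exact zero_le_one
  neg_mem' := by
    intro a ha
    show v (-a) ≤ 1
    rw [v.map_neg]
    exact ha

theorem evalEval_sum (R : K[X][X]) (x y : K) : R.evalEval x y =
    ∑ i ∈ Finset.range (R.natDegree + 1),
      (∑ j ∈ Finset.range ((R.coeff i).natDegree + 1), (R.coeff i).coeff j * x ^ j) * y ^ i := by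
  have h : R.eval (C y) = ∑ i ∈ Finset.range (R.natDegree + 1), R.coeff i * C y ^ i :=
    eval_eq_sum_range (C y)
  rw [evalEval, h, eval_finsetSum]
  refine Finset.sum_congr rfl fun i _ => ?_
  rw [eval_mul, eval_pow, eval_C, eval_eq_sum_range]

theorem val_le_one (v : AbsoluteValue K ℝ) (hv : IsNonarchimedean v) (R : K[X][X]) (x y : K)
    (hR : ∀ i ≤ R.natDegree, ∀ j ≤ (R.coeff i).natDegree, v ((R.coeff i).coeff j) ≤ 1)
    (hx : v x ≤ 1) (hy : v y ≤ 1) : v (R.evalEval x y) ≤ 1 := by
  rw [evalEval_sum]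
  have : (∑ i ∈ Finset.range (R.natDegree + 1),
      (∑ j ∈ Finset.range ((R.coeff i).natDegree + 1), (R.coeff i).coeff j * x ^ j) * y ^ i) ∈
      ring v hv := by
    refine sum_mem fun i hi => mul_mem (sum_mem fun j hj => mul_mem ?_ (pow_mem hx _))
      (pow_mem hy _)
    rw [Finset.mem_range] at hi hj
    exact hR i (by omega) j (by omega)
  exact this

theorem bad [NumberField K] (a : K) : ∃ B : Finset (AbsoluteValue K ℝ),
    ∀ v ∈ nonarchAbsVal (K := K), v ∉ B → v a ≤ 1 := by
  classical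
  by_cases ha : a = 0
  · refine ⟨∅, fun v _ _ => ?_⟩
    rw [ha, v.map_zero]
    exact zero_le_one
  · have h : (Function.mulSupport (fun v : nonarchAbsVal (K := K) => v.val a)).Finite :=
      hasFiniteMulSupport ha
    refine ⟨h.toFinset.image Subtype.val, fun v hv hvB => ?_⟩
    by_contra hne
    apply hvB
    rw [Finset.mem_image]
    refine ⟨⟨v, hv⟩, ?_, rfl⟩
    rw [Set.Finite.mem_toFinset, Function.mem_mulSupport]
    intro h1
    exact hne (le_of_eq h1)

theorem prod_le [NumberField K] (T : Finset (AbsoluteValue K ℝ)) : ∃ 𝓜 : Multiset (AbsoluteValue K ℝ),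
    (∀ v ∈ 𝓜, IsPl v) ∧ (∀ v ∈ archAbsVal (K := K), v ∈ 𝓜) ∧
    (∀ v ∈ nonarchAbsVal (K := K), v ∈ T → v ∈ 𝓜) ∧
    ∀ z : K, z ≠ 0 → (∀ v ∈ nonarchAbsVal (K := K), v ∉ T → v z ≤ 1) →
      1 ≤ (𝓜.map (· z)).prod := by
  classical
  set S : Finset (nonarchAbsVal (K := K)) := T.subtype (· ∈ nonarchAbsVal (K := K)) with hS
  refine ⟨archAbsVal + S.val.map Subtype.val, ?_, ?_, ?_, ?_⟩
  · intro v hv
    rw [Multiset.mem_add] at hv
    rcases hv with hv | hv
    · exact Or.inl hv
    · rw [Multiset.mem_map] at hv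
      obtain ⟨w, -, rfl⟩ := hv
      exact Or.inr w.2
  · intro v hv
    exact Multiset.mem_add.2 (Or.inl hv)
  · intro v hv hvT
    refine Multiset.mem_add.2 (Or.inr (Multiset.mem_map.2 ⟨⟨v, hv⟩, ?_, rfl⟩))
    rw [Finset.mem_val, hS, Finset.mem_subtype]
    exact hvT
  · intro z hz hle
    have hfin : (Function.mulSupport (fun v : nonarchAbsVal (K := K) => v.val z)).Finite :=
      hasFiniteMulSupport hz
    have h1 : ∏ᶠ v : nonarchAbsVal (K := K), v.val z = ∏ v ∈ S ∪ hfin.toFinset, v.val z := by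
      apply finprod_eq_prod_of_mulSupport_subset
      intro v hv
      rw [Finset.coe_union]
      right
      rw [Finset.mem_coe, Set.Finite.mem_toFinset]
      exact hv
    have h2 : ∏ v ∈ S ∪ hfin.toFinset, v.val z ≤ ∏ v ∈ S, v.val z := by
      rw [← Finset.prod_sdiff (Finset.subset_union_left (s₁ := S) (s₂ := hfin.toFinset))]
      have h3 : ∏ v ∈ (S ∪ hfin.toFinset) \ S, v.val z ≤ 1 := by
        apply Finset.prod_le_one
        · intro v _
          exact v.val.nonneg _
        · intro v hv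
          refine hle v.val v.2 ?_
          intro hvT
          rw [Finset.mem_sdiff] at hv
          apply hv.2
          rw [hS, Finset.mem_subtype]
          exact hvT
      have h4 : 0 ≤ ∏ v ∈ S, v.val z := Finset.prod_nonneg fun v _ => v.val.nonneg _
      calc _ ≤ 1 * ∏ v ∈ S, v.val z := mul_le_mul_of_nonneg_right h3 h4
        _ = _ := one_mul _
    have h5 := product_formula (K := K) hz
    rw [Multiset.map_add, Multiset.prod_add, Multiset.map_map]
    have h6 : 0 ≤ (archAbsVal.map (fun v : AbsoluteValue K ℝ => v z)).prod := by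
      apply Multiset.prod_nonneg
      intro a ha
      rw [Multiset.mem_map] at ha
      obtain ⟨v, -, rfl⟩ := ha
      exact v.nonneg _
    calc (1 : ℝ) = (archAbsVal.map (fun v : AbsoluteValue K ℝ => v z)).prod *
          ∏ᶠ v : nonarchAbsVal (K := K), v.val z := h5.symm
      _ ≤ (archAbsVal.map (fun v : AbsoluteValue K ℝ => v z)).prod * ∏ v ∈ S, v.val z := by
          rw [h1]
          exact mul_le_mul_of_nonneg_left h2 h6
      _ = _ := rfl

end NPF

theorem pr_PF (hPB : S_PB) : S_PF := by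
  classical
  intro K _ _ u w U R T h1 h2 h3
  choose Bd hBd using NPF.bad (K := K)
  set T' : Finset (AbsoluteValue K ℝ) := T ∪
    (Finset.range (R.natDegree + 1)).biUnion fun i =>
      (Finset.range ((R.coeff i).natDegree + 1)).biUnion fun j => Bd ((R.coeff i).coeff j) with hT'
  have hout : ∀ v ∈ nonarchAbsVal (K := K), v ∉ T' → ∀ n, v (R.evalEval (u n) (w n)) ≤ 1 := by
    intro v hv hvT n
    rw [hT', Finset.mem_union, not_or] at hvT
    have h4 := h1 v hv hvT.1 n
    refine NPF.val_le_one v (isNonarchimedean v hv) R _ _ ?_ h4.1 h4.2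
    intro i hi j hj
    refine hBd _ v hv ?_
    intro hc
    apply hvT.2
    rw [Finset.mem_biUnion]
    refine ⟨i, Finset.mem_range.2 (by omega), ?_⟩
    rw [Finset.mem_biUnion]
    exact ⟨j, Finset.mem_range.2 (by omega), hc⟩
  obtain ⟨𝓜, hM1, hM2, hM3, hM4⟩ := NPF.prod_le T'
  -- bounds at every place
  have hbd : ∀ v : AbsoluteValue K ℝ, IsPl v → ∃ C : ℝ, 0 < C ∧
      ∀ᶠ n in (U : Filter ℕ), v (R.evalEval (u n) (w n)) ≤ C := by
    intro v hv
    rcases h2 v hv with ⟨B, hB⟩ | ⟨ht, η, hη, hn⟩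
    · obtain ⟨B', m, hB', hR⟩ := (hPB K v).2 R
      refine ⟨B' * max 1 B ^ m * max 1 B ^ R.natDegree, by positivity, ?_⟩
      filter_upwards [hB] with n hn
      refine (hR _ _).trans ?_
      have e1 : max 1 (v (u n)) ≤ max 1 B := max_le_max le_rfl hn.1
      have e2 : max 1 (v (w n)) ≤ max 1 B := max_le_max le_rfl hn.2
      gcongr
    · refine ⟨1, one_pos, ?_⟩
      filter_upwards [hn, ht.eventually_ge_atTop 1] with n h5 h6
      exact h5.trans (Real.rpow_le_one_of_one_le_of_nonpos h6 (by linarith))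
  have hprod : ∀ M : Multiset (AbsoluteValue K ℝ), (∀ v ∈ M, IsPl v) → ∃ C : ℝ, 0 < C ∧
      ∀ᶠ n in (U : Filter ℕ), (M.map (fun v => v (R.evalEval (u n) (w n)))).prod ≤ C := by
    intro M
    induction M using Multiset.induction with
    | empty =>
      intro _
      exact ⟨1, one_pos, Eventually.of_forall fun n => by simp⟩
    | cons v M ih =>
      intro hM
      obtain ⟨C, hC, hC'⟩ := ih fun v hv => hM v (Multiset.mem_cons_of_mem hv)
      obtain ⟨D, hD, hD'⟩ := hbd v (hM v (Multiset.mem_cons_self _ _))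
      refine ⟨D * C, by positivity, ?_⟩
      filter_upwards [hC', hD'] with n h5 h6
      rw [Multiset.map_cons, Multiset.prod_cons]
      refine mul_le_mul h6 h5 ?_ hD.le
      apply Multiset.prod_nonneg
      intro a ha
      rw [Multiset.mem_map] at ha
      obtain ⟨v', -, rfl⟩ := ha
      exact v'.nonneg _
  obtain ⟨v0, hv0, ht0, η, hη, hn0⟩ := h3
  have hv0M : v0 ∈ 𝓜 := by
    rcases hv0 with h | h
    · exact hM2 v0 h
    · refine hM3 v0 h ?_
      rw [hT', Finset.mem_union]
      left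
      by_contra hvT
      obtain ⟨n, hn⟩ := (ht0.eventually_gt_atTop 1).exists
      exact absurd (h1 v0 h hvT n).1 (not_le.2 hn)
  obtain ⟨C, hC, hC'⟩ := hprod (𝓜.erase v0) fun v hv => hM1 v (Multiset.mem_of_mem_erase hv)
  have hsmall : ∀ᶠ n in (U : Filter ℕ), v0 (u n) ^ (-η) < 1 / C := by
    have := (tendsto_rpow_neg_atTop hη).comp ht0
    exact this.eventually_lt_const (by positivity)
  filter_upwards [hn0, hC', hsmall] with n h5 h6 h7
  by_contra hne
  have h8 := hM4 _ hne fun v hv hvT => hout v hv hvT n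
  rw [← Multiset.cons_erase hv0M, Multiset.map_cons, Multiset.prod_cons] at h8
  have h9 : v0 (R.evalEval (u n) (w n)) < 1 / C := lt_of_le_of_lt h5 h7
  have h10 : 0 < v0 (R.evalEval (u n) (w n)) := v0.pos hne
  have h11 : v0 (R.evalEval (u n) (w n)) *
      ((𝓜.erase v0).map (fun v => v (R.evalEval (u n) (w n)))).prod ≤
      v0 (R.evalEval (u n) (w n)) * C := mul_le_mul_of_nonneg_left h6 h10.le
  have h12 : v0 (R.evalEval (u n) (w n)) * C < 1 := by
    rwa [lt_div_iff₀ hC] at h9
  linarith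

end Pool.Agent.Work.MP_91e6de_nt
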