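import Pool.Agent.Work.MP_91e6de_nt.Bd.B01
import Pool.Agent.Work.MP_91e6de_nt.I_B3
import Pool.Agent.Work.MP_91e6de_nt.Bd.B06
import Pool.Agent.Work.MP_91e6de_nt.Bd.B04
import Pool.Agent.Work.MP_91e6de_nt.I_IN
import Pool.Agent.Work.MP_91e6de_nt.I_LM
import Pool.Agent.Work.MP_91e6de_nt.Bd.B05
import Pool.Agent.Work.MP_91e6de_nt.I_PF

/-!
# MP_91e6de: everything together
-/

namespace Pool.Agent.Work.MP_91e6de_nt

theorem all_X1 : S_X1 := pr_X1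
theorem all_X2 : S_X2 := pr_X2 all_X1
theorem all_LP1 : S_LP1 := pr_LP1
theorem all_LP2 : S_LP2 := pr_LP2 all_LP1
theorem all_LP : S_LP := pr_LP pr_TV all_LP1 all_LP2 pr_LP3
theorem all_FS : S_FS := pr_FS all_X2 pr_FD (pr_RB all_X1) all_LP1 all_LP (pr_DF all_X1) pr_CR
theorem all_FO : S_FO := pr_FO all_X1 pr_TV all_LP2
theorem all_CE : S_CE := pr_CE pr_CV
theorem all_T7 : S_T7 := pr_T7 pr_T1 (pr_T5 pr_T1 pr_T3 pr_T4) pr_T6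
theorem all_P3 : S_P3 := pr_P3 pr_P0 (pr_P2 pr_P1)

theorem all_Core : S_Core := asm_Core all_FS pr_PH all_FO all_CE pr_BO pr_T1 all_T7 pr_G1 pr_G2
  pr_G3 pr_QB pr_E0 pr_E1 pr_K1 pr_K2 all_P3

theorem all_ThmA : S_ThmA := asm_ThmA pr_B1 pr_B2 pr_B3 all_Core

theorem all_HU : S_HU := pr_HU pr_PB pr_IN pr_MH pr_H1

theorem all_M0 : S_M0 := asm_M0 pr_UF pr_LM pr_OR pr_PB pr_IN pr_HF all_ThmA (pr_PF pr_PB)

theorem all_M1 : S_M1 := asm_M1 pr_CN pr_DT pr_SL (pr_AU all_HU pr_H1 pr_IN pr_HF) pr_PB all_M0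

theorem all_FIN : S_FIN := asm_FIN (pr_DI pr_PB) all_HU (pr_HB pr_MH) (pr_HN pr_H1) pr_H1 pr_RT
  pr_DG all_M1

end Pool.Agent.Work.MP_91e6de_nt
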