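import Mathlib

/-!
# MP_91e6de: Kawaguchi-Silverman for finite polynomial skew products of the plane
Definitions used by the items (see PROOF.md).
-/

open Polynomial

namespace Pool.Agent.Work.MP_91e6de_nt

/-! ### the map `(x, y) ↦ (g x, F (x, y))` -/

/-- forward orbit of a point under `(x, y) ↦ (g x, F (x, y))` -/
noncomputable def orb {K : Type*} [Field K] (g : K[X]) (F : K[X][X]) (P : K × K) : ℕ → K × K
  | 0 => P
  | n + 1 => (g.eval (orb g F P n).1, F.evalEval (orb g F P n).1 (orb g F P n).2)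

/-- first coordinate of the `n`-th iterate, as a polynomial in `x` -/
noncomputable def gN {K : Type*} [Field K] (g : K[X]) : ℕ → K[X]
  | 0 => X
  | n + 1 => g.comp (gN g n)

/-- second coordinate of the `n`-th iterate, as a polynomial in `y` over `K[x]` -/
noncomputable def FN {K : Type*} [Field K] (g : K[X]) (F : K[X][X]) : ℕ → K[X][X]
  | 0 => X
  | n + 1 => (F.map (compRingHom (gN g n))).comp (FN g F n)

/-- total degree of a polynomial in `x` and `y` (coefficients are polynomials in `x`) -/
noncomputable def totDeg {K : Type*} [Field K] (F : K[X][X]) : ℕ :=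
  F.support.sup fun i => i + (F.coeff i).natDegree

/-! ### seminorms -/

/-- a multiplicative ultrametric seminorm on `W[X]` extending the norm of `W`
(a point of the affine line in the sense of Berkovich) -/
structure BPt (W : Type*) [NormedField W] where
  N : W[X] → ℝ
  nonneg : ∀ f, 0 ≤ N f
  map_C : ∀ a, N (C a) = ‖a‖
  map_mul : ∀ f g, N (f * g) = N f * N g
  add_le : ∀ f g, N (f + g) ≤ max (N f) (N g)

/-- a multiplicative ultrametric seminorm on `K[x][y]`, trivial on `K`, with `|x| = exp 1` -/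
structure LimSn (K : Type*) [Field K] where
  N : K[X][X] → ℝ
  nonneg : ∀ f, 0 ≤ N f
  map_zero : N 0 = 0
  map_mul : ∀ f g, N (f * g) = N f * N g
  add_le : ∀ f g, N (f + g) ≤ max (N f) (N g)
  map_CC : ∀ a : K, a ≠ 0 → N (C (C a)) = 1
  map_X : N (C X) = Real.exp 1

/-! ### fibres -/

/-- radius in the fibre number `j` -/
noncomputable def rad (s : ℝ) (e j : ℕ) : ℝ := Real.exp (s * (e : ℝ) ^ j)

open Classical in
/-- the elements of the multiset `m` in the open disc with centre `c` and radius `r` -/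
noncomputable def disc {W : Type*} [NormedField W] (m : Multiset W) (c : W) (r : ℝ) :
    Multiset W := m.filter fun β => ‖β - c‖ < r

open Classical in
/-- multiplicity of an element in a multiset -/
noncomputable def mcount {W : Type*} (m : Multiset W) (c : W) : ℕ := m.count c

/-- the forward orbit of the base point -/
noncomputable def xs {K W : Type*} [Field K] [Field W] (g : K[X]) (φ : K →+* W) (x : W) : ℕ → W
  | 0 => x
  | j + 1 => g.eval₂ φ (xs g φ x j)

/-- `F (x, Y)` as a polynomial in `Y` -/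
noncomputable def fib {K W : Type*} [Field K] [Field W] (F : K[X][X]) (φ : K →+* W) (x : W) :
    W[X] := F.map (eval₂RingHom φ x)

/-- the leading form of `F (x, Y)` for the weights `1` (of `x`) and `p / q` (of `Y`) -/
noncomputable def leadP {K W : Type*} [Field K] [Field W] (F : K[X][X]) (p q d : ℕ)
    (φ : K →+* W) (x : W) : W[X] :=
  ∑ i ∈ Finset.range (d + 1), if q * (F.coeff i).natDegree = p * (d - i) then
    C (φ (F.coeff i).leadingCoeff * x ^ (F.coeff i).natDegree) * X ^ i else 0

/-- the same leading form at `x = 1`, with coefficients in `K` -/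
noncomputable def leadK {K : Type*} [Field K] (F : K[X][X]) (p q d : ℕ) : K[X] :=
  ∑ i ∈ Finset.range (d + 1), if q * (F.coeff i).natDegree = p * (d - i) then
    C (F.coeff i).leadingCoeff * X ^ i else 0

/-- standing assumptions on `g` and `F`: centred, with constant leading coefficient,
not independent of `x`; `p / q` is the growth exponent of the roots -/
structure Good {K : Type*} [Field K] (g : K[X]) (F : K[X][X]) (d e p q : ℕ) : Prop where
  hg : g.natDegree = e
  he : 1 ≤ e
  hed : e < d
  hF : F.natDegree = d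
  lead : ∃ c : K, c ≠ 0 ∧ F.coeff d = C c
  cent : F.coeff (d - 1) = 0
  hp : 0 < p
  hq : 0 < q
  slope : ∀ i < d, q * (F.coeff i).natDegree ≤ p * (d - i)
  attained : ∃ i < d, F.coeff i ≠ 0 ∧ q * (F.coeff i).natDegree = p * (d - i)

/-- a system of fibres: polynomials `A j` of degree `d` and their discs -/
structure FSys (W : Type*) [NormedField W] (d e : ℕ) (s : ℝ) where
  A : ℕ → W[X]
  cen : ℕ → Multiset W
  deg : ∀ j, (A j).natDegree = d
  lead : ∀ j, ‖(A j).leadingCoeff‖ = 1
  cen_card : ∀ j, (cen j).card = d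
  cen_le : ∀ j, ∀ c ∈ cen j, ‖c‖ ≤ rad s e j
  cen_sep : ∀ j, ∀ c ∈ cen j, ∀ c' ∈ cen j, c ≠ c' → ‖c - c'‖ = rad s e j
  cen_count : ∀ j, ∀ c ∈ cen j, mcount (cen j) c + 1 ≤ d
  roots_le : ∀ j b, ‖b‖ ≤ rad s e (j + 1) → ∀ β ∈ (A j - C b).roots, ‖β‖ ≤ rad s e j
  cont : ∀ j b, ‖b‖ ≤ rad s e (j + 1) → ∀ c ∈ cen j,
    (disc (A j - C b).roots c (rad s e j)).card = mcount (cen j) c

namespace FSys

variable {W : Type*} [NormedField W] {d e : ℕ} {s : ℝ}

/-- multiplicity of the centre `c` in the fibre `j` -/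
noncomputable def mlt (S : FSys W d e s) (j : ℕ) (c : W) : ℕ := mcount (S.cen j) c

/-- the composition `A (j-1) ∘ ... ∘ A 0` -/
noncomputable def Phi (S : FSys W d e s) : ℕ → W[X]
  | 0 => X
  | j + 1 => (S.A j).comp (S.Phi j)

/-- the roots (with multiplicity) of `A (j+n-1) ∘ ... ∘ A j` whose itinerary is `c j, c (j+1), ...` -/
noncomputable def Cset (S : FSys W d e s) (c : ℕ → W) : ℕ → ℕ → Multiset W
  | 0, _ => {0}
  | n + 1, j => (S.Cset c n (j + 1)).bind fun b => disc (S.A j - C b).roots (c j) (rad s e j)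

end FSys

open Classical in
/-- exponent of the value at a point with itinerary `c` of the polynomial with roots
`Cset c' n j` (recursive form) -/
noncomputable def Ufun {W : Type*} (m : ℕ → W → ℕ) (d e : ℕ) (s : ℝ) (c c' : ℕ → W) :
    ℕ → ℕ → ℝ
  | 0, j => s * (e : ℝ) ^ j
  | n + 1, j => if c j = c' j then
      Ufun m d e s c c' n (j + 1) - s * (e : ℝ) ^ j * ((d : ℝ) - m j (c j)) *
        ∏ i ∈ Finset.range n, (m (j + 1 + i) (c' (j + 1 + i)) : ℝ)
    else s * (e : ℝ) ^ j * ∏ i ∈ Finset.range (n + 1), (m (j + i) (c' (j + i)) : ℝ)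

open Classical in
/-- the kernel `1 - ((d-e)/e) ∑_{i ≤ common prefix, i ≤ k} ∏_{l < i} e / m_l` -/
noncomputable def kap {α : Type*} (m : ℕ → α → ℕ) (d e k : ℕ) (w w' : ℕ → α) : ℝ :=
  1 - ((d : ℝ) - e) / e * ∑ i ∈ Finset.range k,
    if ∀ l ≤ i, w l = w' l then ∏ l ∈ Finset.range (i + 1), (e : ℝ) / (m l (w l)) else 0

/-- `j`-th digit, coefficient `l`, of the `Q`-adic expansion of `A` -/
noncomputable def digit {L : Type*} [Field L] (Q : L[X]) (j l : ℕ) (A : L[X]) : L :=
  ((A /ₘ Q ^ j) %ₘ Q).coeff l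

/-- the centred form of `F`: conjugation of the skew product by `(x, y) ↦ (x, y + b x)` -/
noncomputable def shiftF {K : Type*} [Field K] (g : K[X]) (F : K[X][X]) (b : K[X]) : K[X][X] :=
  F.comp (X - C b) + C (b.comp g)

end Pool.Agent.Work.MP_91e6de_nt
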